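import Mathlib

/-!
# The regular conjugate locus need not be dense in sub-Riemannian geometry

The sub-Riemannian manifold is the product of the Heisenberg group and a line: `ℝ⁴` with
coordinates `(x, y, z, s)` and the orthonormal frame `∂x - y/2 ∂z`, `∂y + x/2 ∂z`, `∂s`. For
`lam = (a, b, θ, c)`, `q = 0`, the exponential map is
`exp lam = ((a sin θ - b (1 - cos θ)) / θ, (a (1 - cos θ) + b sin θ) / θ,
  (a² + b²) (θ - sin θ) / (2 θ²), c)`.
For `a = b = 0`, `c ≠ 0` the geodesic is the line `(0, 0, 0, c t)`, which is also abnormal, and all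
these covectors are conjugate. Near `(0, 0, π, 1)` there are no other conjugate covectors: the
Jacobian is `(a² + b²) (2 - 2 cos θ - θ sin θ) / θ⁴`. So near `(0, 0, π, 1)` the conjugate locus is a
linear plane (through the origin) and it consists of singular covectors.
-/

open Set Filter Topology
open scoped ContDiff

noncomputable section

namespace Pool.Agent.Results.MP_f98bae_gt.NotDense

/-- `ℝⁿ`, for the points, the tangent vectors and the covectors. -/
abbrev R (n : ℕ) : Type := Fin n → ℝ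

variable {n k : ℕ}

/-- The vector fields which are iterated brackets of the vector fields `X i`. -/
inductive IteratedBracket (X : Fin k → R n → R n) : (R n → R n) → Prop
  | field (i : Fin k) : IteratedBracket X (X i)
  | bracket {V W : R n → R n} : IteratedBracket X V → IteratedBracket X W →
      IteratedBracket X (VectorField.lieBracket ℝ V W)

/-- The vector fields `X i` are an orthonormal frame of a sub-Riemannian structure on `ℝⁿ`: they are
smooth, linearly independent at each point, and the distribution which they span is bracket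
generating. -/
structure IsSubRiemannian (X : Fin k → R n → R n) : Prop where
  smooth : ∀ i, ContDiff ℝ ∞ (X i)
  independent : ∀ q, LinearIndependent ℝ fun i => X i q
  generating : ∀ q, Submodule.span ℝ {v | ∃ V, IteratedBracket X V ∧ v = V q} = ⊤

/-- The sub-Riemannian Hamiltonian, at the covector `p` at the point `q`. -/
def Ham (X : Fin k → R n → R n) (q p : R n) : ℝ := 1 / 2 * ∑ i, (p ⬝ᵥ X i q) ^ 2

/-- `t ↦ (q t, p t)` is an integral curve of the Hamiltonian vector field, that is
`dH (u, w) = w (q') - p' (u)`. -/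
def IsTrajectory (X : Fin k → R n → R n) (q p : ℝ → R n) : Prop :=
  ∀ t, ∃ dq dp : R n, HasDerivAt q dq t ∧ HasDerivAt p dp t ∧
    ∀ u w : R n, fderiv ℝ (fun x : R n × R n => Ham X x.1 x.2) (q t, p t) (u, w) =
      w ⬝ᵥ dq - dp ⬝ᵥ u

/-- `e` is the sub-Riemannian exponential map at `q₀`, and it is defined on all of `T*_{q₀} M`. -/
def IsExp (X : Fin k → R n → R n) (q₀ : R n) (e : R n → R n) : Prop :=
  ∀ lam, ∃ q p : ℝ → R n, IsTrajectory X q p ∧ q 0 = q₀ ∧ p 0 = lam ∧ e lam = q 1

/-- The conjugate locus, for the exponential map `e` at `q₀`. -/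
def Conj (X : Fin k → R n → R n) (q₀ : R n) (e : R n → R n) : Set (R n) :=
  {lam | Ham X q₀ lam ≠ 0 ∧ ¬ Function.Bijective (fderiv ℝ e lam)}

/-- The regular conjugate locus. -/
def Regular (X : Fin k → R n → R n) (q₀ : R n) (e : R n → R n) : Set (R n) :=
  {lam | lam ∈ Conj X q₀ e ∧ ∃ U ∈ 𝓝 lam, ∀ v : R n, v ≠ 0 →
    ∀ s t : ℝ, s • v ∈ Conj X q₀ e ∩ U → t • v ∈ Conj X q₀ e ∩ U → s • v = t • v}

/-! ### The example -/

/-- The orthonormal frame. -/
def frame : Fin 3 → R 4 → R 4 :=
  ![fun q => ![1, 0, -(q 1 / 2), 0], fun q => ![0, 1, q 0 / 2, 0], fun _ => ![0, 0, 0, 1]]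

lemma ham_frame (q p : R 4) : Ham frame q p =
    1 / 2 * ((p 0 - q 1 * p 2 / 2) ^ 2 + (p 1 + q 0 * p 2 / 2) ^ 2 + p 3 ^ 2) := by
  simp [Ham, frame, Fin.sum_univ_succ, dotProduct]
  ring

lemma fderiv_ham (q p u w : R 4) :
    fderiv ℝ (fun x : R 4 × R 4 => Ham frame x.1 x.2) (q, p) (u, w) =
      (p 0 - q 1 * p 2 / 2) * (w 0 - (u 1 * p 2 + q 1 * w 2) / 2) +
      (p 1 + q 0 * p 2 / 2) * (w 1 + (u 0 * p 2 + q 0 * w 2) / 2) + p 3 * w 3 := by
  simp_rw [ham_frame]
  have hq : ∀ i : Fin 4, HasFDerivAt (fun x : R 4 × R 4 => x.1 i)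
      ((ContinuousLinearMap.proj i).comp (ContinuousLinearMap.fst ℝ (R 4) (R 4))) (q, p) :=
    fun i => ((ContinuousLinearMap.proj i).comp
      (ContinuousLinearMap.fst ℝ (R 4) (R 4))).hasFDerivAt
  have hp : ∀ i : Fin 4, HasFDerivAt (fun x : R 4 × R 4 => x.2 i)
      ((ContinuousLinearMap.proj i).comp (ContinuousLinearMap.snd ℝ (R 4) (R 4))) (q, p) :=
    fun i => ((ContinuousLinearMap.proj i).comp
      (ContinuousLinearMap.snd ℝ (R 4) (R 4))).hasFDerivAt
  have h0 := ((hp 0).sub (((hq 1).mul (hp 2)).mul_const (1 / 2))).pow 2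
  have h1 := ((hp 1).add (((hq 0).mul (hp 2)).mul_const (1 / 2))).pow 2
  have h2 := (hp 3).pow 2
  have h := ((h0.add h1).add h2).const_mul (1 / 2)
  have e : (fun x : R 4 × R 4 => 1 / 2 * ((x.2 0 - x.1 1 * x.2 2 / 2) ^ 2 +
      (x.2 1 + x.1 0 * x.2 2 / 2) ^ 2 + x.2 3 ^ 2)) = fun x : R 4 × R 4 =>
        1 / 2 * ((x.2 0 - x.1 1 * x.2 2 * (1 / 2)) ^ 2 +
      (x.2 1 + x.1 0 * x.2 2 * (1 / 2)) ^ 2 + x.2 3 ^ 2) := by
    ext x
    ring
  rw [e]
  erw [h.fderiv]
  simp
  ring

lemma frame_bracket (q : R 4) :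
    VectorField.lieBracket ℝ (frame 0) (frame 1) q = ![0, 0, 1, 0] := by
  have hq : ∀ i : Fin 4, HasFDerivAt (fun x : R 4 => x i) (ContinuousLinearMap.proj i : R 4 →L[ℝ] ℝ) q :=
    fun i => (ContinuousLinearMap.proj i : R 4 →L[ℝ] ℝ).hasFDerivAt
  have h0 : HasFDerivAt (frame 0) (ContinuousLinearMap.pi
      ![0, 0, -((ContinuousLinearMap.proj 1 : R 4 →L[ℝ] ℝ).smulRight (1 / 2)), 0]) q := by
    rw [hasFDerivAt_pi']
    intro i
    fin_cases i
    · exact hasFDerivAt_const _ _
    · exact hasFDerivAt_const _ _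
    · have := ((hq 1).mul_const (1 / 2)).neg
      refine this.congr_fderiv ?_ |>.congr_of_eventuallyEq (Eventually.of_forall fun x => ?_)
      · ext v
        simp
        ring
      · show -(x 1 / 2) = -(x 1 * (1 / 2))
        ring
    · exact hasFDerivAt_const _ _
  have h1 : HasFDerivAt (frame 1) (ContinuousLinearMap.pi
      ![0, 0, ((ContinuousLinearMap.proj 0 : R 4 →L[ℝ] ℝ).smulRight (1 / 2)), 0]) q := by
    rw [hasFDerivAt_pi']
    intro i
    fin_cases i
    · exact hasFDerivAt_const _ _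
    · exact hasFDerivAt_const _ _
    · have := (hq 0).mul_const (1 / 2)
      refine this.congr_fderiv ?_ |>.congr_of_eventuallyEq (Eventually.of_forall fun x => ?_)
      · ext v
        simp
        ring
      · show (x 0 / 2) = (x 0 * (1 / 2))
        ring
    · exact hasFDerivAt_const _ _
  rw [VectorField.lieBracket, h0.fderiv, h1.fderiv]
  ext i
  fin_cases i <;> simp [frame]
  norm_num

lemma isSubRiemannian_frame : IsSubRiemannian frame where
  smooth i := by
    have hq : ∀ i : Fin 4, ContDiff ℝ ∞ (fun x : R 4 => x i) := fun i => contDiff_apply ℝ ℝ i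
    fin_cases i <;> refine contDiff_pi.2 fun j => ?_ <;> fin_cases j
    · exact contDiff_const
    · exact contDiff_const
    · exact ((hq 1).div_const 2).neg
    · exact contDiff_const
    · exact contDiff_const
    · exact contDiff_const
    · exact (hq 0).div_const 2
    · exact contDiff_const
    · exact contDiff_const
    · exact contDiff_const
    · exact contDiff_const
    · exact contDiff_const
  independent q := by
    rw [Fintype.linearIndependent_iff]
    intro g hg i
    have h0 := congrFun hg 0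
    have h1 := congrFun hg 1
    have h3 := congrFun hg 3
    simp [frame, Fin.sum_univ_succ] at h0 h1 h3
    fin_cases i
    · exact h0
    · exact h1
    · exact h3
  generating q := by
    rw [eq_top_iff]
    intro v _
    set P := Submodule.span ℝ {v | ∃ V, IteratedBracket frame V ∧ v = V q} with hP
    have m0 : frame 0 q ∈ P := Submodule.subset_span ⟨_, .field 0, rfl⟩
    have m1 : frame 1 q ∈ P := Submodule.subset_span ⟨_, .field 1, rfl⟩
    have m2 : frame 2 q ∈ P := Submodule.subset_span ⟨_, .field 2, rfl⟩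
    have m3 : VectorField.lieBracket ℝ (frame 0) (frame 1) q ∈ P :=
      Submodule.subset_span ⟨_, .bracket (.field 0) (.field 1), rfl⟩
    have e : v = v 0 • frame 0 q + v 1 • frame 1 q + v 3 • frame 2 q +
        (v 2 + v 0 * q 1 / 2 - v 1 * q 0 / 2) •
          VectorField.lieBracket ℝ (frame 0) (frame 1) q := by
      rw [frame_bracket]
      ext i
      fin_cases i <;> simp [frame]
      ring
    rw [e]
    exact P.add_mem (P.add_mem (P.add_mem (P.smul_mem _ m0) (P.smul_mem _ m1)) (P.smul_mem _ m2))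
      (P.smul_mem _ m3)

/-- The exponential map of the frame at the origin. -/
def expo (lam : R 4) : R 4 :=
  if lam 2 = 0 then ![lam 0, lam 1, 0, lam 3] else
    ![(lam 0 * Real.sin (lam 2) - lam 1 * (1 - Real.cos (lam 2))) / lam 2,
      (lam 0 * (1 - Real.cos (lam 2)) + lam 1 * Real.sin (lam 2)) / lam 2,
      (lam 0 ^ 2 + lam 1 ^ 2) * (lam 2 - Real.sin (lam 2)) / (2 * lam 2 ^ 2), lam 3]

lemma isExp_expo : IsExp frame 0 expo := by
  intro lam
  obtain ⟨a, ha⟩ : ∃ a, a = lam 0 := ⟨_, rfl⟩
  obtain ⟨b, hb⟩ : ∃ b, b = lam 1 := ⟨_, rfl⟩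
  obtain ⟨θ, hθ⟩ : ∃ θ, θ = lam 2 := ⟨_, rfl⟩
  obtain ⟨c, hc⟩ : ∃ c, c = lam 3 := ⟨_, rfl⟩
  have hlam : lam = ![a, b, θ, c] := by
    ext i
    fin_cases i <;> simp [ha, hb, hθ, hc]
  -- the horizontal coordinates of the covector
  let p : ℝ → R 4 := fun t => ![(a * (1 + Real.cos (θ * t)) - b * Real.sin (θ * t)) / 2,
    (a * Real.sin (θ * t) + b * (1 + Real.cos (θ * t))) / 2, θ, c]
  have hs : ∀ t, HasDerivAt (fun t => Real.sin (θ * t)) (θ * Real.cos (θ * t)) t := by
    intro t
    have h : HasDerivAt (fun t => θ * t) θ t := by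
      simpa using (hasDerivAt_id t).const_mul θ
    exact h.sin.congr_deriv (mul_comm _ _)
  have hco : ∀ t, HasDerivAt (fun t => Real.cos (θ * t)) (-θ * Real.sin (θ * t)) t := by
    intro t
    have h : HasDerivAt (fun t => θ * t) θ t := by
      simpa using (hasDerivAt_id t).const_mul θ
    exact h.cos.congr_deriv (by ring)
  have hp : ∀ t, HasDerivAt p ![-(θ * (a * Real.sin (θ * t) + b * Real.cos (θ * t)) / 2),
      θ * (a * Real.cos (θ * t) - b * Real.sin (θ * t)) / 2, 0, 0] t := by
    intro t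
    rw [hasDerivAt_pi]
    intro i
    fin_cases i
    · refine HasDerivAt.congr_deriv
        ((((hco t).const_add 1).const_mul a).sub ((hs t).const_mul b) |>.div_const 2) ?_
      show _ = -(θ * (a * Real.sin (θ * t) + b * Real.cos (θ * t)) / 2)
      ring
    · refine HasDerivAt.congr_deriv
        (((hs t).const_mul a).add (((hco t).const_add 1).const_mul b) |>.div_const 2) ?_
      show _ = θ * (a * Real.cos (θ * t) - b * Real.sin (θ * t)) / 2
      ring
    · exact hasDerivAt_const _ _
    · exact hasDerivAt_const _ _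
  -- it remains to find the position
  suffices h : ∃ x y z : ℝ → ℝ,
      (∀ t, HasDerivAt x (a * Real.cos (θ * t) - b * Real.sin (θ * t)) t) ∧
      (∀ t, HasDerivAt y (a * Real.sin (θ * t) + b * Real.cos (θ * t)) t) ∧
      (∀ t, HasDerivAt z ((x t * (a * Real.sin (θ * t) + b * Real.cos (θ * t)) -
        y t * (a * Real.cos (θ * t) - b * Real.sin (θ * t))) / 2) t) ∧
      (∀ t, θ * x t = a * Real.sin (θ * t) - b * (1 - Real.cos (θ * t))) ∧
      (∀ t, θ * y t = a * (1 - Real.cos (θ * t)) + b * Real.sin (θ * t)) ∧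
      x 0 = 0 ∧ y 0 = 0 ∧ z 0 = 0 ∧ expo lam = ![x 1, y 1, z 1, c] by
    obtain ⟨x, y, z, hx, hy, hz, ex, ey, x0, y0, z0, he⟩ := h
    refine ⟨fun t => ![x t, y t, z t, c * t], p, fun t => ?_, ?_, ?_, ?_⟩
    · refine ⟨![a * Real.cos (θ * t) - b * Real.sin (θ * t),
        a * Real.sin (θ * t) + b * Real.cos (θ * t),
        (x t * (a * Real.sin (θ * t) + b * Real.cos (θ * t)) -
        y t * (a * Real.cos (θ * t) - b * Real.sin (θ * t))) / 2, c], _, ?_, hp t, ?_⟩
      · rw [hasDerivAt_pi]
        intro i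
        fin_cases i
        · exact hx t
        · exact hy t
        · exact hz t
        · simpa using (hasDerivAt_id t).const_mul c
      · intro u w
        rw [fderiv_ham]
        have e1 := ex t
        have e2 := ey t
        simp [p, dotProduct, Fin.sum_univ_succ]
        linear_combination (-1 / 2 * (w 0 - (u 1 * θ + y t * w 2) / 2)) * e2 +
          (1 / 2 * (w 1 + (u 0 * θ + x t * w 2) / 2)) * e1
    · ext i
      fin_cases i <;> simp [x0, y0, z0]
    · rw [hlam]
      ext i
      fin_cases i <;> simp [p] <;> ring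
    · rw [he]
      simp
  by_cases h0 : θ = 0
  · refine ⟨fun t => a * t, fun t => b * t, fun _ => 0, fun t => ?_, fun t => ?_, fun t => ?_,
      fun t => ?_, fun t => ?_, by simp, by simp, rfl, ?_⟩
    · simpa [h0] using (hasDerivAt_id t).const_mul a
    · simpa [h0] using (hasDerivAt_id t).const_mul b
    · refine (hasDerivAt_const t (0 : ℝ)).congr_deriv ?_
      simp [h0]
      ring
    · simp [h0]
    · simp [h0]
    · rw [expo, if_pos (by rw [← hθ, h0]), ← ha, ← hb, ← hc]
      simp
  · refine ⟨fun t => (a * Real.sin (θ * t) - b * (1 - Real.cos (θ * t))) / θ,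
      fun t => (a * (1 - Real.cos (θ * t)) + b * Real.sin (θ * t)) / θ,
      fun t => (a ^ 2 + b ^ 2) * (θ * t - Real.sin (θ * t)) / (2 * θ ^ 2),
      fun t => ?_, fun t => ?_, fun t => ?_, fun t => ?_, fun t => ?_, ?_, ?_, ?_, ?_⟩
    · refine HasDerivAt.congr_deriv
        (((hs t).const_mul a).sub (((hco t).const_sub 1).const_mul b) |>.div_const θ) ?_
      field_simp
    · refine HasDerivAt.congr_deriv
        ((((hco t).const_sub 1).const_mul a).add ((hs t).const_mul b) |>.div_const θ) ?_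
      field_simp
    · have h : HasDerivAt (fun t => θ * t) θ t := by
        simpa using (hasDerivAt_id t).const_mul θ
      refine HasDerivAt.congr_deriv
        ((h.sub (hs t)).const_mul (a ^ 2 + b ^ 2) |>.div_const (2 * θ ^ 2)) ?_
      have hsc := Real.sin_sq_add_cos_sq (θ * t)
      field_simp
      linear_combination (-(a ^ 2 + b ^ 2)) * hsc
    · field_simp
    · field_simp
    · simp
    · simp
    · simp
    · rw [expo, if_neg (by rw [← hθ]; exact h0), ← ha, ← hb, ← hc, ← hθ]
      simp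

/-! ### Conjugate covectors -/

/-- The covectors on the abnormal geodesic are conjugate. -/
lemma mem_conj {lam : R 4} (h0 : lam 0 = 0) (h1 : lam 1 = 0) (h3 : lam 3 ≠ 0) :
    lam ∈ Conj frame 0 expo := by
  refine ⟨?_, fun hbij => ?_⟩
  · rw [ham_frame]
    have : 0 < lam 3 ^ 2 := by positivity
    simp [h0, h1, h3]
  · have hv : fderiv ℝ expo lam (Pi.single 2 1) = 0 := by
      by_cases hd : DifferentiableAt ℝ expo lam
      · have h : HasDerivAt (fun s : ℝ => lam + s • (Pi.single 2 1 : R 4)) (Pi.single 2 1) 0 := by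
          simpa using ((hasDerivAt_id (0 : ℝ)).smul_const (Pi.single 2 1 : R 4)).const_add lam
        have hd' : HasFDerivAt expo (fderiv ℝ expo lam) (lam + (0 : ℝ) • (Pi.single 2 1 : R 4)) := by
          simpa using hd.hasFDerivAt
        have h2 := hd'.comp_hasDerivAt (0 : ℝ) h
        have e : expo ∘ (fun s : ℝ => lam + s • (Pi.single 2 1 : R 4)) =
            fun _ => ![0, 0, 0, lam 3] := by
          funext s
          rw [Function.comp_apply, expo]
          split_ifs <;> simp [h0, h1]
        rw [e] at h2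
        exact h2.unique (hasDerivAt_const _ _)
      · rw [fderiv_zero_of_not_differentiableAt hd]
        rfl
    have h2 : (Pi.single 2 1 : R 4) = 0 := hbij.1 (hv.trans (map_zero _).symm)
    have := congrFun h2 2
    simp at this

/-- Near `(0, 0, π, 1)` there are no other conjugate covectors. -/
lemma not_mem_conj {lam : R 4} (h2 : lam 2 ≠ 0)
    (hJ : 2 - 2 * Real.cos (lam 2) - lam 2 * Real.sin (lam 2) ≠ 0)
    (hκ : 1 - Real.cos (lam 2) ≠ 0) (h01 : lam 0 ^ 2 + lam 1 ^ 2 ≠ 0) :
    Function.Bijective (fderiv ℝ expo lam) := by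
  -- the map is differentiable
  have hev : ∀ᶠ x : R 4 in 𝓝 lam, x 2 ≠ 0 :=
    (continuous_apply 2).continuousAt.eventually_ne h2
  have hd : DifferentiableAt ℝ expo lam := by
    have hi : ∀ i : Fin 4, DifferentiableAt ℝ (fun x : R 4 => x i) lam :=
      fun i => differentiableAt_apply i lam
    have h : DifferentiableAt ℝ (fun lam : R 4 =>
        (![(lam 0 * Real.sin (lam 2) - lam 1 * (1 - Real.cos (lam 2))) / lam 2,
        (lam 0 * (1 - Real.cos (lam 2)) + lam 1 * Real.sin (lam 2)) / lam 2,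
        (lam 0 ^ 2 + lam 1 ^ 2) * (lam 2 - Real.sin (lam 2)) / (2 * lam 2 ^ 2), lam 3] : R 4))
        lam := by
      rw [differentiableAt_pi]
      intro i
      fin_cases i
      · show DifferentiableAt ℝ (fun lam : R 4 =>
          (lam 0 * Real.sin (lam 2) - lam 1 * (1 - Real.cos (lam 2))) / lam 2) lam
        fun_prop (disch := exact h2)
      · show DifferentiableAt ℝ (fun lam : R 4 =>
          (lam 0 * (1 - Real.cos (lam 2)) + lam 1 * Real.sin (lam 2)) / lam 2) lam
        fun_prop (disch := exact h2)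
      · show DifferentiableAt ℝ (fun lam : R 4 =>
          (lam 0 ^ 2 + lam 1 ^ 2) * (lam 2 - Real.sin (lam 2)) / (2 * lam 2 ^ 2)) lam
        have h3 : 2 * lam 2 ^ 2 ≠ 0 := by positivity
        fun_prop (disch := exact h3)
      · exact hi 3
    refine h.congr_of_eventuallyEq ?_
    filter_upwards [hev] with x hx
    rw [expo, if_neg hx]
  have hinj : Function.Injective (fderiv ℝ expo lam) := by
    rw [injective_iff_map_eq_zero]
    intro v hv
    have hl : HasDerivAt (fun s : ℝ => lam + s • v) v 0 := by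
      simpa using ((hasDerivAt_id (0 : ℝ)).smul_const v).const_add lam
    have hd' : HasFDerivAt expo (fderiv ℝ expo lam) (lam + (0 : ℝ) • v) := by
      simpa using hd.hasFDerivAt
    have he := hd'.comp_hasDerivAt (0 : ℝ) hl
    rw [hv] at he
    have hei : ∀ i, HasDerivAt (fun s : ℝ => expo (lam + s • v) i) 0 0 :=
      fun i => hasDerivAt_pi.1 he i
    have hli : ∀ i, HasDerivAt (fun s : ℝ => lam i + s * v i) (v i) 0 := by
      intro i
      simpa using ((hasDerivAt_id (0 : ℝ)).mul_const (v i)).const_add (lam i)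
    have hev' : ∀ᶠ s : ℝ in 𝓝 0, (lam + s • v) 2 ≠ 0 := by
      have : Tendsto (fun s : ℝ => lam + s • v) (𝓝 0) (𝓝 lam) := by
        have := hl.continuousAt.tendsto
        simpa using this
      exact this.eventually hev
    have ev0 : expo lam = ![(lam 0 * Real.sin (lam 2) - lam 1 * (1 - Real.cos (lam 2))) / lam 2,
        (lam 0 * (1 - Real.cos (lam 2)) + lam 1 * Real.sin (lam 2)) / lam 2,
        (lam 0 ^ 2 + lam 1 ^ 2) * (lam 2 - Real.sin (lam 2)) / (2 * lam 2 ^ 2), lam 3] := by
      rw [expo, if_neg h2]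
    -- the derivatives of the components
    have E1 := ((hli 2).mul (hei 0)).unique (((((hli 0).mul (hli 2).sin).sub ((hli 1).mul
      ((hli 2).cos.const_sub 1)))).congr_of_eventuallyEq (by
        filter_upwards [hev'] with s hs
        have hs' : lam 2 + s * v 2 ≠ 0 := hs
        simp only [Pi.mul_apply, Pi.sub_apply]
        rw [expo, if_neg hs]
        simp
        field_simp))
    have E2 := ((hli 2).mul (hei 1)).unique (((((hli 0).mul ((hli 2).cos.const_sub 1)).add
      ((hli 1).mul (hli 2).sin))).congr_of_eventuallyEq (by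
        filter_upwards [hev'] with s hs
        have hs' : lam 2 + s * v 2 ≠ 0 := hs
        simp only [Pi.mul_apply, Pi.add_apply]
        rw [expo, if_neg hs]
        simp
        field_simp))
    have E3 := ((((hli 2).pow 2).const_mul 2).mul (hei 2)).unique
      ((((((hli 0).pow 2).add ((hli 1).pow 2)).mul ((hli 2).sub
        (hli 2).sin))).congr_of_eventuallyEq (by
        filter_upwards [hev'] with s hs
        have hs' : lam 2 + s * v 2 ≠ 0 := hs
        simp only [Pi.mul_apply, Pi.add_apply, Pi.sub_apply, Pi.pow_apply]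
        rw [expo, if_neg hs]
        simp
        field_simp))
    have E4 : v 3 = 0 := by
      refine (hli 3).unique ((hei 3).congr_of_eventuallyEq (Eventually.of_forall fun s => ?_))
      simp only
      rw [expo]
      split_ifs <;> simp
    have X0 : lam 2 * expo lam 0 =
        lam 0 * Real.sin (lam 2) - lam 1 * (1 - Real.cos (lam 2)) := by
      rw [ev0]
      simp
      field_simp
    have X1 : lam 2 * expo lam 1 =
        lam 0 * (1 - Real.cos (lam 2)) + lam 1 * Real.sin (lam 2) := by
      rw [ev0]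
      simp
      field_simp
    have X2 : 2 * lam 2 ^ 2 * expo lam 2 =
        (lam 0 ^ 2 + lam 1 ^ 2) * (lam 2 - Real.sin (lam 2)) := by
      rw [ev0]
      simp
      field_simp
    simp only [zero_smul, add_zero, zero_mul, mul_zero, Pi.pow_apply, Pi.sub_apply,
      Pi.add_apply] at E1 E2 E3
    push_cast at E3
    have hsc := Real.sin_sq_add_cos_sq (lam 2)
    generalize expo lam 0 = e0 at *
    generalize expo lam 1 = e1 at *
    generalize expo lam 2 = e2 at *
    generalize ha : lam 0 = a at *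
    generalize hb : lam 1 = b at *
    generalize hθ : lam 2 = θ at *
    generalize Real.sin θ = s at *
    generalize Real.cos θ = c at *
    have R1 : 2 * (1 - c) * (v 2 * (a ^ 2 + b ^ 2)) =
        θ * (2 * (1 - c) * (a * v 0 + b * v 1) + v 2 * (a ^ 2 + b ^ 2) * s) := by
      linear_combination (a * s - b * (1 - c)) * (θ * E1 - v 2 * X0) +
        (a * (1 - c) + b * s) * (θ * E2 - v 2 * X1) -
        (v 2 * (a ^ 2 + b ^ 2) - θ * (a * v 0 + b * v 1)) * hsc
    have R2 : 2 * v 2 * (a ^ 2 + b ^ 2) * (θ - s) =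
        θ * (2 * (a * v 0 + b * v 1) * (θ - s) + (a ^ 2 + b ^ 2) * (1 - c) * v 2) := by
      linear_combination θ * E3 - 2 * v 2 * X2
    have R3 : θ * (a ^ 2 + b ^ 2) * v 2 * (2 - 2 * c - θ * s) = 0 := by
      linear_combination (-(1 - c)) * R2 + (θ - s) * R1 - θ * (a ^ 2 + b ^ 2) * v 2 * hsc
    have v2 : v 2 = 0 := by
      have h5 : θ * (a ^ 2 + b ^ 2) ≠ 0 := mul_ne_zero h2 h01
      have h6 := (mul_eq_zero.1 R3).resolve_right hJ
      exact (mul_eq_zero.1 h6).resolve_left h5
    rw [v2] at E1 E2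
    have v0 : v 0 = 0 := by
      have h5 : 2 * (1 - c) * v 0 = 0 := by
        linear_combination (-s) * E1 - (1 - c) * E2 - v 0 * hsc
      exact (mul_eq_zero.1 h5).resolve_left (mul_ne_zero two_ne_zero hκ)
    have v1 : v 1 = 0 := by
      have h5 : 2 * (1 - c) * v 1 = 0 := by
        linear_combination (1 - c) * E1 - s * E2 - v 1 * hsc
      exact (mul_eq_zero.1 h5).resolve_left (mul_ne_zero two_ne_zero hκ)
    ext i
    fin_cases i
    · exact v0
    · exact v1
    · exact v2
    · exact E4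
  exact ⟨hinj, (LinearMap.injective_iff_surjective (f := (fderiv ℝ expo lam : R 4 →ₗ[ℝ] R 4))).1 hinj⟩

/-- **The regular conjugate locus need not be dense.** -/
theorem result : ∃ (X : Fin 3 → R 4 → R 4) (e : R 4 → R 4), IsSubRiemannian X ∧ IsExp X 0 e ∧
    (Conj X 0 e).Nonempty ∧ ¬ Conj X 0 e ⊆ closure (Regular X 0 e) := by
  have hmem : (![0, 0, Real.pi, 1] : R 4) ∈ Conj frame 0 expo := by
    refine mem_conj ?_ ?_ ?_ <;> simp
  refine ⟨frame, expo, isSubRiemannian_frame, isExp_expo, ⟨_, hmem⟩, fun hsub => ?_⟩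
  have hcl := hsub hmem
  -- the neighbourhood
  have hopen : ∀ᶠ lam : R 4 in 𝓝 ![0, 0, Real.pi, 1], 0 < lam 2 ∧
      0 < 2 - 2 * Real.cos (lam 2) - lam 2 * Real.sin (lam 2) ∧ 0 < 1 - Real.cos (lam 2) ∧
      0 < lam 3 := by
    have h2 : Continuous fun lam : R 4 => lam 2 := continuous_apply 2
    have h3 : Continuous fun lam : R 4 => lam 3 := continuous_apply 3
    have c1 : Continuous fun lam : R 4 =>
        2 - 2 * Real.cos (lam 2) - lam 2 * Real.sin (lam 2) := by fun_prop
    have c2 : Continuous fun lam : R 4 => 1 - Real.cos (lam 2) := by fun_prop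
    have g1 : ∀ᶠ lam : R 4 in 𝓝 ![0, 0, Real.pi, 1], 0 < lam 2 :=
      (isOpen_lt continuous_const h2).mem_nhds (by
        show 0 < Real.pi
        exact Real.pi_pos)
    have g2 : ∀ᶠ lam : R 4 in 𝓝 ![0, 0, Real.pi, 1],
        0 < 2 - 2 * Real.cos (lam 2) - lam 2 * Real.sin (lam 2) :=
      (isOpen_lt continuous_const c1).mem_nhds (by
        show 0 < 2 - 2 * Real.cos Real.pi - Real.pi * Real.sin Real.pi
        rw [Real.cos_pi, Real.sin_pi]
        norm_num)
    have g3 : ∀ᶠ lam : R 4 in 𝓝 ![0, 0, Real.pi, 1], 0 < 1 - Real.cos (lam 2) :=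
      (isOpen_lt continuous_const c2).mem_nhds (by
        show 0 < 1 - Real.cos Real.pi
        rw [Real.cos_pi]
        norm_num)
    have g4 : ∀ᶠ lam : R 4 in 𝓝 ![0, 0, Real.pi, 1], 0 < lam 3 :=
      (isOpen_lt continuous_const h3).mem_nhds (by
        show (0 : ℝ) < 1
        norm_num)
    filter_upwards [g1, g2, g3, g4] with lam a b c d using ⟨a, b, c, d⟩
  obtain ⟨lam, ⟨hc, U, hU, hreg⟩, h2, hJ, hκ, h3⟩ :=
    ((mem_closure_iff_frequently.1 hcl).and_eventually hopen).exists
  have h01 : lam 0 ^ 2 + lam 1 ^ 2 = 0 := by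
    by_contra h01
    exact hc.2 (not_mem_conj h2.ne' hJ.ne' hκ.ne' h01)
  have h0 : lam 0 = 0 := by nlinarith [sq_nonneg (lam 0), sq_nonneg (lam 1)]
  have h1 : lam 1 = 0 := by nlinarith [sq_nonneg (lam 0), sq_nonneg (lam 1)]
  have hU' : ∀ᶠ t : ℝ in 𝓝 1, t • lam ∈ U := by
    have : Tendsto (fun t : ℝ => t • lam) (𝓝 1) (𝓝 ((1 : ℝ) • lam)) :=
      (continuous_id.smul continuous_const).tendsto 1
    rw [one_smul] at this
    exact this hU
  have hpos : ∀ᶠ t : ℝ in 𝓝 1, t ≠ 0 := continuousAt_id.eventually_ne one_ne_zero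
  obtain ⟨t, ⟨htU, ht0⟩, ht1⟩ :=
    (((hU'.and hpos).filter_mono nhdsWithin_le_nhds).and
      (self_mem_nhdsWithin : {(1 : ℝ)}ᶜ ∈ 𝓝[≠] 1)).exists
  have hlam : lam ≠ 0 := by
    intro h
    rw [h] at h2
    exact lt_irrefl _ h2
  have heq := hreg lam hlam 1 t ⟨by rwa [one_smul], by rw [one_smul]; exact mem_of_mem_nhds hU⟩
    ⟨mem_conj (by simp [h0]) (by simp [h1]) (by simp [ht0, h3.ne']), htU⟩
  have h4 := congrFun heq 2
  simp only [Pi.smul_apply, smul_eq_mul] at h4
  apply ht1
  have h5 : (t - 1) * lam 2 = 0 := by linarith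
  have := (mul_eq_zero.1 h5).resolve_right h2.ne'
  simp only [mem_singleton_iff]
  linarith

end Pool.Agent.Results.MP_f98bae_gt.NotDense
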